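import Pool.Agent.X295.PfG

/-!
# MP_0e6b5f_nt: families of generalized Hénon maps with several parameters without periodic points

Let `K` be a number field of degree `n` (for instance `ℚ`).  Consider the generalized Hénon maps

  `f_t(x, y) = (y, (F_t(y) - δ(t) x) / μ(t))`, `F_t(y) = p_0(t) + p_1(t) y + … + p_d(t) y^d`, `t ∈ K^m`,

where the `p_i`, `δ` and `μ` are polynomials over `K` in `m` variables, `d ≥ 2`, and `p_0, p_d, δ, μ ≠ 0`.  Assume that

* `deg p_i ≤ (1 - i/d) deg p_0 + (i/d) deg p_d` (the Newton polygon of `F` has one slope), and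
* `deg p_0 + d max(deg δ, deg μ) < d deg p_0 + deg p_d`.

For example, all maps `(y, y^d + p_{d-1}(t) y^{d-1} + … + p_0(t) - b x)` with a constant `b ≠ 0`, `p_0` not constant
and `deg p_i ≤ (1 - i/d) deg p_0`.

Then for all but `O(H^(n (m + 1) - 1 + n/β + ε))` of the parameters `t` of height at most `H`, where
`β = d / gcd(d, B! |deg p_0 - deg p_d|)`, `f_t` is a generalized Hénon map of degree `d` and it has NO periodic point
over any extension `L` of `K` of degree at most `B`.

Proof.  Write `t = (x_1 / x_0, …, x_m / x_0)` with integers `x_i` of `K`.  Let `w` be a place of `L` above a place `v` of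
`K` with `v(x_0) = k > 0`, prime to the leading forms of `p_0`, `p_d`, `δ` and `μ`, and let `f` be its ramification
index.  Let `z_j` be the coordinates of a periodic orbit, so `F_t(z_{j+1}) = μ z_{j+2} + δ z_j`, and let `a` be the
least `w(z_j)`.  If `a ≠ -(deg p_0 - deg p_d) f k / d`, then the valuation of `F_t(z_j)` for a `z_j` with `w(z_j) = a` is
that of the leading or of the constant term, and this is less than `a - max(deg δ, deg μ) f k`.  So `d` divides
`(deg p_0 - deg p_d) f k`, and `β` divides `k`.  This happens for few `x` (`Pool.Agent.X295.GalA` to `GalK` and `PfA`).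
-/

set_option autoImplicit false

open NumberField Polynomial

namespace Pool.Agent.Results.MP_0e6b5f_nt.FamiliesSeveralParameters

/-- The map `(x, y) ↦ (y, (F(y) - δ x) / μ)` on the plane over `L`. -/
noncomputable def henon {L : Type} [Field L] (F : L[X]) (δ μ : L) (P : L × L) : L × L :=
  (P.2, (F.eval P.2 - δ * P.1) / μ)

section
variable {K : Type} [Field K] {m : ℕ}

/-- The conditions on the family `F`, `δ`, `μ`. -/
structure IsFamily (d : ℕ) (F : (MvPolynomial (Fin m) K)[X]) (δ μ : MvPolynomial (Fin m) K) :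
    Prop where
  degree : F.natDegree = d
  two : 2 ≤ d
  const : F.coeff 0 ≠ 0
  ne_zero : δ ≠ 0 ∧ μ ≠ 0
  slope : ∀ i ≤ d, d * (F.coeff i).totalDegree ≤
    (d - i) * (F.coeff 0).totalDegree + i * (F.coeff d).totalDegree
  large : (F.coeff 0).totalDegree + d * max δ.totalDegree μ.totalDegree <
    d * (F.coeff 0).totalDegree + (F.coeff d).totalDegree

/-- The polynomial at `t`, with coefficients in `L`. -/
noncomputable def at' (L : Type) [Field L] [Algebra K L] (P : (MvPolynomial (Fin m) K)[X])
    (t : Fin m → K) : L[X] := (P.map (MvPolynomial.eval t)).map (algebraMap K L)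

/-- The value at `t`, in `L`. -/
noncomputable def value (L : Type) [Field L] [Algebra K L] (p : MvPolynomial (Fin m) K)
    (t : Fin m → K) : L := algebraMap K L (MvPolynomial.eval t p)

/-- The member at `t` is a generalized Hénon map of degree `d` over `K`. -/
def IsHenon (d : ℕ) (F : (MvPolynomial (Fin m) K)[X]) (δ μ : MvPolynomial (Fin m) K)
    (t : Fin m → K) : Prop :=
  (at' K F t).natDegree = d ∧ value K δ t ≠ 0 ∧ value K μ t ≠ 0

variable [NumberField K] {ι : Type} [Fintype ι]

/-- The height of `t` is at most `H`: `t = (x_1 / x_0, …, x_m / x_0)` with integers `x_i` of `K` whose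
coordinates in the basis `ω` are at most `H`. -/
def HeightLe (ω : Module.Basis ι ℤ (𝓞 K)) (H : ℕ) (t : Fin m → K) : Prop :=
  ∃ x : Fin (m + 1) → 𝓞 K, x 0 ≠ 0 ∧ (∀ i k, |ω.repr (x i) k| ≤ H) ∧
    ∀ j, t j = (x j.succ : K) / (x 0 : K)

/-- The parameters `t` of height at most `H` such that the member at `t` is not a generalized Hénon map of
degree `d`, or has a periodic point over an extension `L` of `K` of degree at most `B`. -/
def Exceptions (ω : Module.Basis ι ℤ (𝓞 K)) (d : ℕ) (F : (MvPolynomial (Fin m) K)[X])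
    (δ μ : MvPolynomial (Fin m) K) (B H : ℕ) : Set (Fin m → K) :=
  {t | HeightLe ω H t ∧ ¬ (IsHenon d F δ μ t ∧
    ∀ (L : Type) [Field L] [NumberField L] [Algebra K L], Module.finrank K L ≤ B →
      ∀ (P : L × L) (n : ℕ), 1 ≤ n →
        (henon (at' L F t) (value L δ t) (value L μ t))^[n] P ≠ P)}

end

/-- **Almost all members have no periodic points of bounded degree.** -/
theorem result (K : Type) [Field K] [NumberField K] {ι : Type} [Fintype ι]
    (ω : Module.Basis ι ℤ (𝓞 K)) (m d B : ℕ) (F : (MvPolynomial (Fin m) K)[X])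
    (δ μ : MvPolynomial (Fin m) K) (hF : IsFamily d F δ μ) (ε : ℝ) (hε : 0 < ε) :
    ∃ C : ℝ, ∀ H : ℕ, 1 ≤ H → (Exceptions ω d F δ μ B H).Finite ∧
      ((Exceptions ω d F δ μ B H).ncard : ℝ) ≤
        C * (H : ℝ) ^ (((m : ℝ) + 1) * Module.finrank ℚ K - 1 + (Module.finrank ℚ K : ℝ) /
          (d / Nat.gcd d (B.factorial *
            (((F.coeff 0).totalDegree : ℤ) - (F.coeff d).totalDegree).natAbs) : ℕ) + ε) := by
  obtain ⟨hd, h2, h0, ⟨hδ, hμ⟩, hs, hl⟩ := hF
  have hF0 : F ≠ 0 := by
    rintro rfl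
    exact h0 (coeff_zero 0)
  have hcd : F.coeff d ≠ 0 := by
    rw [← hd]
    exact leadingCoeff_ne_zero.2 hF0
  obtain ⟨C, -, hC⟩ := Pool.Agent.X295.Pf.hen_few ω h2 h0 hcd hδ hμ
    (fun i hi => ⟨hd ▸ le_natDegree_of_ne_zero hi, hs i (hd ▸ le_natDegree_of_ne_zero hi)⟩)
    hl B ε hε
  refine ⟨C, fun H hH => hC H hH _ ?_⟩
  rintro t ⟨ht, hnot⟩
  refine ⟨ht, fun hall => hnot ?_⟩
  obtain ⟨h3, h4, h5, h6⟩ := hall
  refine ⟨⟨?_, ?_, ?_⟩, h6⟩
  · refine le_antisymm (natDegree_map_le.trans (natDegree_map_le.trans hd.le)) ?_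
    refine le_natDegree_of_ne_zero ?_
    show ((F.map (MvPolynomial.eval t)).map (algebraMap K K)).coeff d ≠ 0
    rw [coeff_map, coeff_map]
    exact h3
  · exact h4
  · exact h5

end Pool.Agent.Results.MP_0e6b5f_nt.FamiliesSeveralParameters
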