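import Pool.Agent.Results.MP_0e6b5f_nt.LargeDegreeHenon
import Pool.Agent.X134.Win.NearQ

/-!
# Rational periodic points of the Hénon maps `(x, y) ↦ (y, a y ^ d + g(y) + c - b x)` for `c` near a generic real number

The height of a rational number is the maximum of `|numerator|` and denominator. There is a set `E` of real numbers of
Hausdorff dimension zero such that for every real number `x` outside `E`, every `k` and every `η > 0` there are `d₀ > k`,
`Y₀` and `δ > 0` with the following property. For all real `Y ≥ Y₀`, ALL degrees `d₀ ≤ d ≤ Y ^ δ`, ALL rational `a, b ≠ 0`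
and polynomials `g` of degree at most `k` with coefficients of height at most `Y ^ δ` and ALL rational `c` of height at most
`Y ^ d` with `|c - x| ≤ Y ^ (-η)`, the map `(x, y) ↦ (y, a y ^ d + g(y) + c - b x)` has at most nine rational periodic
points.

In particular, for each `d ≥ d₀` and each rational `b ≠ 0` this holds for `(x, y) ↦ (y, y ^ d + c - b x)` and all rational
`c` of large height `H` with `|c - x| ≤ H ^ (-η / d)`.
-/

set_option autoImplicit false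

open Filter Topology
open scoped ENNReal

namespace Pool.Agent.Results.MP_0e6b5f_nt.GenericConstantTerm

/-- the height of a rational number -/
def height (q : ℚ) : ℕ := max q.num.natAbs q.den

/-- the map `(x, y) ↦ (y, a y ^ d + g(y) + c - b x)` -/
def henon (a b : ℚ) (g : Polynomial ℚ) (d : ℕ) (c : ℚ) (P : ℚ × ℚ) : ℚ × ℚ :=
  (P.2, a * P.2 ^ d + g.eval P.2 + c - b * P.1)

/-- the rational periodic points -/
def periodic (f : ℚ × ℚ → ℚ × ℚ) : Set (ℚ × ℚ) := {P | ∃ n : ℕ, 1 ≤ n ∧ f^[n] P = P}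

open Pool.Agent.X134.Win (two ht one_le_two near_family exists_two rpow_le_two)

/-- the polynomial with the coefficients `u 2, u 3, …` -/
noncomputable def gp {k : ℕ} (u : Fin (k + 3) → ℚ) : Polynomial ℚ :=
  ∑ i : Fin (k + 1), Polynomial.C (u i.succ.succ) * Polynomial.X ^ (i : ℕ)

lemma gp_natDegree {k : ℕ} (u : Fin (k + 3) → ℚ) : (gp u).natDegree ≤ k := by
  unfold gp
  refine Polynomial.natDegree_sum_le_of_forall_le _ _ fun i _ => ?_
  exact (Polynomial.natDegree_C_mul_X_pow_le _ _).trans (by have := i.2; omega)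

lemma gp_coeff {k : ℕ} (u : Fin (k + 3) → ℚ) (j : ℕ) :
    (gp u).coeff j = if h : j < k + 1 then u (Fin.succ (Fin.succ ⟨j, h⟩)) else 0 := by
  unfold gp
  rw [Polynomial.finsetSum_coeff]
  simp only [Polynomial.coeff_C_mul_X_pow]
  split_ifs with h
  · rw [Finset.sum_eq_single (⟨j, h⟩ : Fin (k + 1))]
    · simp
    · intro b _ hb
      rw [if_neg]
      intro h2
      exact hb (Fin.ext h2.symm)
    · intro h2
      exact absurd (Finset.mem_univ _) h2
  · refine Finset.sum_eq_zero fun i _ => ?_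
    rw [if_neg]
    intro h2
    exact h (h2 ▸ i.2)

lemma gp_cons {k : ℕ} (a b : ℚ) (g : Polynomial ℚ) (hg : g.natDegree ≤ k) :
    gp (Fin.cons a (Fin.cons b (fun i : Fin (k + 1) => g.coeff i) : Fin (k + 2) → ℚ)) = g := by
  ext j
  rw [gp_coeff]
  split_ifs with h
  · rw [Fin.cons_succ, Fin.cons_succ]
  · rw [Polynomial.coeff_eq_zero_of_natDegree_lt (by omega)]

lemma heightLE_of {B : ℕ} {q : ℚ} (h : ht q ≤ B) : LargeDegreeHenon.HeightLE B q := by
  have h1 : q.num.natAbs ≤ B := le_trans (le_max_left _ _) h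
  have h2 : q.den ≤ B := le_trans (le_max_right _ _) h
  refine ⟨?_, h2⟩
  rw [Int.abs_eq_natAbs]
  exact_mod_cast h1

lemma two_eq (n : ℕ) : (((2 ^ n : ℕ)) : ℝ) = two n := by
  unfold two
  push_cast
  rfl

lemma le_of_cast {n : ℕ} {m : ℕ} {q : ℚ} (h : (ht q : ℝ) ≤ two n ^ (1 / ((m : ℝ) + 1))) : ht q ≤ (2 ^ n) ^ 1 := by
  have h1 : two n ^ (1 / ((m : ℝ) + 1)) ≤ two n := by
    calc two n ^ (1 / ((m : ℝ) + 1)) ≤ two n ^ (1 : ℝ) := by
          refine Real.rpow_le_rpow_of_exponent_le (one_le_two n) ?_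
          rw [div_le_one (by positivity)]
          linarith [(Nat.cast_nonneg m : (0 : ℝ) ≤ m)]
      _ = two n := Real.rpow_one _
  have h2 : (ht q : ℝ) ≤ ((2 ^ n : ℕ) : ℝ) := by
    rw [two_eq]
    exact h.trans h1
  rw [pow_one]
  exact_mod_cast h2

lemma one_k (k : ℕ) : ∃ E : Set ℝ, dimH E = 0 ∧ ∀ x : ℝ, x ∉ E → ∀ η : ℝ, 0 < η →
    ∃ (d₀ : ℕ) (Y₀ δ : ℝ), k < d₀ ∧ 0 < δ ∧ 1 ≤ Y₀ ∧ ∀ Y : ℝ, Y₀ ≤ Y → ∀ d : ℕ, d₀ ≤ d → (d : ℝ) ≤ Y ^ δ →
      ∀ (a b : ℚ) (g : Polynomial ℚ) (c : ℚ), a ≠ 0 → b ≠ 0 → (height a : ℝ) ≤ Y ^ δ → (height b : ℝ) ≤ Y ^ δ →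
      g.natDegree ≤ k → (∀ i, (height (g.coeff i) : ℝ) ≤ Y ^ δ) → (height c : ℝ) ≤ Y ^ d →
      |(c : ℝ) - x| ≤ Y ^ (-η) → (periodic (henon a b g d c)).encard ≤ 9 := by
  have he : ∀ m : ℕ, (0 : ℝ) < 1 / ((m : ℝ) + 1) := fun m => by positivity
  choose d₀ δ hd₀ hδ hres using fun m : ℕ => LargeDegreeHenon.result k 1 (1 / ((m : ℝ) + 1)) (he m)
  obtain ⟨E, hE1, hE2⟩ := near_family (T := ℚ) (fun c => (c : ℝ)) (k + 3)
    (fun m n u => {c : ℚ | u 0 ≠ 0 ∧ u 1 ≠ 0 ∧ (∀ i, (ht (u i) : ℝ) ≤ two n ^ (1 / ((m : ℝ) + 1))) ∧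
      ∃ d, (d, c) ∈ LargeDegreeHenon.exceptional (u 0) (u 1) (gp u) (d₀ m) (δ m) (2 ^ n)}) (fun m => by
      refine ⟨1, fun n u => ?_⟩
      by_cases hu : u 0 ≠ 0 ∧ u 1 ≠ 0 ∧ (∀ i, (ht (u i) : ℝ) ≤ two n ^ (1 / ((m : ℝ) + 1)))
      · obtain ⟨h1, h2⟩ := hres m (2 ^ n) Nat.one_le_two_pow (u 0) (u 1) (gp u) hu.1 hu.2.1
          (heightLE_of (le_of_cast (hu.2.2 0))) (heightLE_of (le_of_cast (hu.2.2 1)))
          (gp_natDegree u) (fun i => by
            rw [gp_coeff]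
            split_ifs with h
            · exact heightLE_of (le_of_cast (hu.2.2 _))
            · refine heightLE_of ?_
              have : ht 0 = 1 := by simp [ht]
              rw [this]
              exact Nat.one_le_pow _ _ (by positivity))
        have hsub : {c : ℚ | u 0 ≠ 0 ∧ u 1 ≠ 0 ∧ (∀ i, (ht (u i) : ℝ) ≤ two n ^ (1 / ((m : ℝ) + 1))) ∧
            ∃ d, (d, c) ∈ LargeDegreeHenon.exceptional (u 0) (u 1) (gp u) (d₀ m) (δ m) (2 ^ n)} ⊆
            Prod.snd '' LargeDegreeHenon.exceptional (u 0) (u 1) (gp u) (d₀ m) (δ m) (2 ^ n) := by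
          rintro c ⟨-, -, -, d, hd⟩
          exact ⟨(d, c), hd, rfl⟩
        refine ⟨(h1.image _).subset hsub, ?_⟩
        have h3 := (Set.ncard_le_ncard hsub (h1.image _)).trans (Set.ncard_image_le h1)
        rw [one_mul]
        refine (Nat.cast_le.2 h3).trans (h2.trans (le_of_eq ?_))
        rw [two_eq]
      · have hemp : {c : ℚ | u 0 ≠ 0 ∧ u 1 ≠ 0 ∧ (∀ i, (ht (u i) : ℝ) ≤ two n ^ (1 / ((m : ℝ) + 1))) ∧
            ∃ d, (d, c) ∈ LargeDegreeHenon.exceptional (u 0) (u 1) (gp u) (d₀ m) (δ m) (2 ^ n)} = ∅ := by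
          ext c
          simp only [Set.mem_ofPred_eq, Set.mem_empty_iff_false, iff_false]
          exact fun h => hu ⟨h.1, h.2.1, h.2.2.1⟩
        rw [hemp]
        refine ⟨Set.finite_empty, ?_⟩
        rw [Set.ncard_empty, Nat.cast_zero, one_mul]
        exact Real.rpow_nonneg (zero_le_one.trans (one_le_two n)) _)
  refine ⟨E, hE1, fun x hx η hη => ?_⟩
  obtain ⟨m, n₀, hn₀⟩ := hE2 x hx (min η 1) (lt_min hη one_pos)
  refine ⟨d₀ m, max 1 (two n₀), min (δ m) (1 / ((m : ℝ) + 1)), hd₀ m, lt_min (hδ m) (he m), le_max_left _ _,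
    fun Y hY d hd1 hd2 a b g c ha hb hha hhb hg hhg hc hcx => ?_⟩
  have hY1 : 1 ≤ Y := le_trans (le_max_left _ _) hY
  have hYp : 0 < Y := by linarith
  obtain ⟨n, hn1, hn2⟩ := exists_two Y hY1
  have hnn : n₀ ≤ n := by
    by_contra hcon
    rw [not_le] at hcon
    have h5 : two n < two n₀ := pow_lt_pow_right₀ (by norm_num) hcon
    have h6 : two n₀ ≤ Y := le_trans (le_max_right _ _) hY
    linarith
  have hup : ∀ t : ℝ, 0 ≤ t → Y ^ t ≤ two n ^ t := fun t ht => Real.rpow_le_rpow hYp.le hn1 ht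
  have hδ0 : 0 ≤ min (δ m) (1 / ((m : ℝ) + 1)) := (lt_min (hδ m) (he m)).le
  have hb1 : Y ^ min (δ m) (1 / ((m : ℝ) + 1)) ≤ two n ^ (1 / ((m : ℝ) + 1)) :=
    (hup _ hδ0).trans (Real.rpow_le_rpow_of_exponent_le (one_le_two n) (min_le_right _ _))
  have hb2 : Y ^ min (δ m) (1 / ((m : ℝ) + 1)) ≤ two n ^ δ m :=
    (hup _ hδ0).trans (Real.rpow_le_rpow_of_exponent_le (one_le_two n) (min_le_left _ _))
  set u : Fin (k + 3) → ℚ := Fin.cons a (Fin.cons b (fun i : Fin (k + 1) => g.coeff i) : Fin (k + 2) → ℚ) with hu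
  have hu0 : u 0 = a := rfl
  have hu1 : u 1 = b := rfl
  have hug : gp u = g := gp_cons a b g hg
  have hall : ∀ i, (ht (u i) : ℝ) ≤ two n ^ (1 / ((m : ℝ) + 1)) := by
    intro i
    refine Fin.cases ?_ (fun j => ?_) i
    · exact hha.trans hb1
    · rw [hu, Fin.cons_succ]
      refine Fin.cases ?_ (fun l => ?_) j
      · exact hhb.trans hb1
      · rw [Fin.cons_succ]
        exact (hhg l).trans hb1
  by_contra hcon
  rw [not_le] at hcon
  have hmem : (d, c) ∈ LargeDegreeHenon.exceptional (u 0) (u 1) (gp u) (d₀ m) (δ m) (2 ^ n) := by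
    refine ⟨hd1, ?_, heightLE_of ?_, ?_⟩
    · show (d : ℝ) ≤ (((2 ^ n : ℕ)) : ℝ) ^ δ m
      rw [two_eq]
      exact hd2.trans hb2
    · have h1 : (height c : ℝ) ≤ (((2 ^ n) ^ d : ℕ) : ℝ) := by
        rw [Nat.cast_pow, two_eq]
        exact hc.trans (pow_le_pow_left₀ hYp.le hn1 d)
      show height c ≤ (2 ^ n) ^ d
      exact_mod_cast h1
    · rw [hu0, hu1, hug]
      exact hcon
  have h1 := hn₀ n hnn u hall c ⟨by rw [hu0]; exact ha, by rw [hu1]; exact hb, hall, d, hmem⟩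
  exact absurd (hcx.trans (rpow_le_two n hY1 hη.le hn2)) (not_le.2 h1)

/-- **Theorem.** There is a set `E` of Hausdorff dimension zero such that for every real `x ∉ E`, every `k` and every
`η > 0` there are `d₀ > k`, `Y₀` and `δ > 0` such that (1) for all `Y ≥ Y₀`, all `d₀ ≤ d ≤ Y ^ δ`, all rational `a, b ≠ 0` and
`g` of degree at most `k` with coefficients of height at most `Y ^ δ` and all rational `c` of height at most `Y ^ d` with
`|c - x| ≤ Y ^ (-η)` the map `(x, y) ↦ (y, a y ^ d + g(y) + c - b x)` has at most nine rational periodic points; (2) for every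
`d ≥ d₀` and every rational `b ≠ 0` there is `H₀` such that `(x, y) ↦ (y, y ^ d + c - b x)` has at most nine rational periodic
points for all rational `c` of height `H ≥ H₀` with `|c - x| ≤ H ^ (-η / d)`. -/
theorem result : ∃ E : Set ℝ, dimH E = 0 ∧ ∀ x : ℝ, x ∉ E → ∀ (k : ℕ) (η : ℝ), 0 < η →
    ∃ (d₀ : ℕ) (Y₀ δ : ℝ), k < d₀ ∧ 0 < δ ∧
      (∀ Y : ℝ, Y₀ ≤ Y → ∀ d : ℕ, d₀ ≤ d → (d : ℝ) ≤ Y ^ δ → ∀ (a b : ℚ) (g : Polynomial ℚ) (c : ℚ),
        a ≠ 0 → b ≠ 0 → (height a : ℝ) ≤ Y ^ δ → (height b : ℝ) ≤ Y ^ δ → g.natDegree ≤ k →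
        (∀ i, (height (g.coeff i) : ℝ) ≤ Y ^ δ) →
        (height c : ℝ) ≤ Y ^ d → |(c : ℝ) - x| ≤ Y ^ (-η) → (periodic (henon a b g d c)).encard ≤ 9) ∧
      ∀ d : ℕ, d₀ ≤ d → ∀ b : ℚ, b ≠ 0 → ∃ H₀ : ℝ, ∀ c : ℚ, H₀ ≤ height c →
        |(c : ℝ) - x| ≤ (height c : ℝ) ^ (-η / d) →
        (periodic fun P => (P.2, P.2 ^ d + c - b * P.1)).encard ≤ 9 := by
  choose E hE1 hE2 using one_k
  refine ⟨⋃ k, E k, by rw [dimH_iUnion]; simp [hE1], fun x hx k η hη => ?_⟩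
  obtain ⟨d₀, Y₀, δ, h1, h2, h3, h4⟩ := hE2 k x (fun h => hx (Set.mem_iUnion.2 ⟨k, h⟩)) η hη
  refine ⟨d₀, Y₀, δ, h1, h2, h4, fun d hd b hb => ?_⟩
  have hd0 : 0 < d := by omega
  have hdr : (0 : ℝ) < d := by exact_mod_cast hd0
  set L : ℝ := max ((d : ℝ) ^ (1 / δ)) ((height b : ℝ) ^ (1 / δ)) with hL
  refine ⟨(max Y₀ L) ^ d, fun c hc hcx => ?_⟩
  have hMp : 0 ≤ max Y₀ L := le_trans (by linarith) (le_max_left _ _)
  set Y : ℝ := (height c : ℝ) ^ (1 / (d : ℝ)) with hY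
  have hh0 : (0 : ℝ) ≤ height c := Nat.cast_nonneg _
  have hYd : Y ^ d = height c := by
    rw [hY, ← Real.rpow_natCast, ← Real.rpow_mul hh0, one_div_mul_cancel hdr.ne', Real.rpow_one]
  have hYM : max Y₀ L ≤ Y := by
    have h5 : ((max Y₀ L) ^ d) ^ (1 / (d : ℝ)) ≤ Y :=
      Real.rpow_le_rpow (by positivity) hc (by positivity)
    rwa [← Real.rpow_natCast, ← Real.rpow_mul hMp, mul_one_div_cancel hdr.ne', Real.rpow_one] at h5
  have hYL : L ≤ Y := (le_max_right _ _).trans hYM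
  have hY1 : 1 ≤ Y := h3.trans ((le_max_left _ _).trans hYM)
  have hYδ : 1 ≤ Y ^ δ := Real.one_le_rpow hY1 h2.le
  have hup : ∀ t : ℝ, 0 ≤ t → t ^ (1 / δ) ≤ Y → t ≤ Y ^ δ := by
    intro t ht htY
    have h7 : (t ^ (1 / δ)) ^ δ ≤ Y ^ δ := Real.rpow_le_rpow (by positivity) htY h2.le
    rwa [← Real.rpow_mul ht, one_div_mul_cancel h2.ne', Real.rpow_one] at h7
  have h6 := h4 Y ((le_max_left _ _).trans hYM) d hd (hup _ hdr.le ((le_max_left _ _).trans hYL)) 1 b 0 c one_ne_zero hb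
    (by simpa [height] using hYδ) (hup _ (Nat.cast_nonneg _) ((le_max_right _ _).trans hYL)) (by simp)
    (fun i => by simpa [height] using hYδ) hYd.ge (by
      refine hcx.trans (le_of_eq ?_)
      rw [hY, ← Real.rpow_mul hh0]
      congr 1
      field_simp)
  have h8 : henon 1 b 0 d c = fun P => (P.2, P.2 ^ d + c - b * P.1) := by
    funext P
    simp [henon]
  rwa [h8] at h6

end Pool.Agent.Results.MP_0e6b5f_nt.GenericConstantTerm
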