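import Pool.Agent.Results.MP_0e6b5f_nt.AlmostAllBoundedDegree
import Pool.Agent.Results.MP_0e6b5f_nt.AlmostAllIntegerMaps
import Pool.Agent.X174.WinRat

/-!
# No periodic points of bounded degree for ALL Hénon maps with coefficients in cubes around thin sequences

Let `v ≥ 1` be a sequence of exponent of convergence at most `τ` (for `v_i = (i + 1) ^ a` this is `1 / a`, for `v_i = b ^ i`
it is `0`) and `ρ < 1`. (1) For every `d ≥ 2`, outside a set of `x ∈ ℝ^(d + 2)` of Hausdorff dimension at most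
`(d + 2 - 1/10 + τ) / (1 - ρ)`, for all but finitely many `i`, ALL generalized Hénon maps of degree `d` with integral
coefficients in the cube with centre `x v_i` and side `2 v_i ^ ρ` have no rational periodic point. (2) Let `K` be a number
field of degree `n`, `B ≥ 1`, `d ≥ 6 B n (B n + 1) + 4`. Outside a set of dimension at most `(n (d + 2) - 1/4 + τ) / (1 - ρ)`
the same is true over `K` with coefficients whose coordinates (with respect to an integral basis) are in the cube, for all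
periodic points of degree at most `B` over `K`; (3) outside a set of dimension at most `(n (d + 3) - 1/4 + τ) / (1 - ρ)` it
is true for ALL Hénon maps over `K` with numerators and common denominator in the cube. The numbers of exceptions are from
the starting results `AlmostAllIntegerMaps` and `AlmostAllBoundedDegree`.
-/

set_option autoImplicit false

open NumberField Module

namespace Pool.Agent.Results.MP_0e6b5f_nt.MapsInCubes

/-- the exponent of convergence of the sequence `v` is at most `τ` -/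
def ExpLe (v : ℕ → ℝ) (τ : ℝ) : Prop := ∀ t : ℝ, τ < t → Summable (fun n : ℕ => (v n) ^ (-t))

/-- the set of indices of the integral basis of `K` -/
abbrev J (K : Type) [Field K] [NumberField K] : Type := Free.ChooseBasisIndex ℤ (𝓞 K)

/-- the coordinates of an integer of `K` with respect to the integral basis -/
noncomputable def coord {K : Type} [Field K] [NumberField K] (z : 𝓞 K) (j : J K) : ℝ :=
  (((RingOfIntegers.basis K).repr z j : ℤ) : ℝ)

/-- the coordinates of the numerators `a_0, …, a_d` and `δ` (index `none`) -/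
noncomputable def coords {K : Type} [Field K] [NumberField K] {d : ℕ} (q : AlmostAllBoundedDegree.Nums K d)
    (p : Option (Fin (d + 1)) × J K) : ℝ := coord (p.1.elim q.2 q.1) p.2

/-- **Theorem.** Let `v ≥ 1` be a sequence of exponent of convergence at most `τ ≥ 0` and `ρ < 1`.
(1) For `d ≥ 2` there is a set `E ⊂ ℝ^(d + 2)` of Hausdorff dimension at most `(d + 2 - 1/10 + τ) / (1 - ρ)` such that for
each `(x, y)` outside `E`, for all but finitely many `i`, NONE of the maps `(X, Y) ↦ (Y, ∑ a_j Y ^ j - δ X)` with integers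
`a_d ≠ 0`, `δ ≠ 0`, `|a_j - x_j v_i| ≤ v_i ^ ρ` (`j ≤ d`) and `|δ - y v_i| ≤ v_i ^ ρ` has a rational periodic point.
(2) Let `K` be a number field of degree `n`, `B ≥ 1` and `d ≥ 6 B n (B n + 1) + 4`. There is a set `E` of dimension at most
`(n (d + 2) - 1/4 + τ) / (1 - ρ)` such that for each `x` outside `E`, for all but finitely many `i`, ALL numerators
`(a, δ)` over the ring of integers whose coordinates differ from `x v_i` by at most `v_i ^ ρ` give Hénon maps without
periodic points of degree at most `B` over `K`.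
(3) There is a set `E` of dimension at most `(n (d + 3) - 1/4 + τ) / (1 - ρ)` such that for each `(x, y)` outside `E`, for
all but finitely many `i`, ALL Hénon maps with numerators `(a, δ)` and denominator `m ≠ 0` whose coordinates differ from
`x v_i` and `y v_i` by at most `v_i ^ ρ` have no periodic points of degree at most `B` over `K`.
The sequences `v_i = (i + 1) ^ a` and `v_i = b ^ i` have exponent of convergence at most `1 / a` and `0`. -/
theorem result :
    (∀ (v : ℕ → ℝ) (τ ρ : ℝ), (∀ i, 1 ≤ v i) → 0 ≤ τ → ExpLe v τ → ρ < 1 →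
      (∀ d : ℕ, 2 ≤ d → ∃ E : Set (Option (Fin (d + 1)) → ℝ),
        dimH E ≤ ENNReal.ofReal (((d : ℝ) + 2 - 1 / 10 + τ) / (1 - ρ)) ∧
        ∀ x : Option (Fin (d + 1)) → ℝ, x ∉ E → ∃ i₀ : ℕ, ∀ i : ℕ, i₀ ≤ i →
          ∀ (a : Fin (d + 1) → ℤ) (δ : ℤ), a (Fin.last d) ≠ 0 → δ ≠ 0 →
            (∀ j, |(a j : ℝ) - x (some j) * v i| ≤ (v i) ^ ρ) → |(δ : ℝ) - x none * v i| ≤ (v i) ^ ρ →
              ¬ ∃ P : ℚ × ℚ, ∃ k : ℕ, 1 ≤ k ∧ (AlmostAllIntegerMaps.henon (fun j => (a j : ℚ)) (δ : ℚ))^[k] P = P) ∧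
      ∀ (K : Type) [Field K] [NumberField K] (B d : ℕ), 1 ≤ B →
        6 * (B * finrank ℚ K * (B * finrank ℚ K + 1)) + 4 ≤ d →
        (∃ E : Set (Option (Fin (d + 1)) × J K → ℝ),
          dimH E ≤ ENNReal.ofReal (((finrank ℚ K : ℝ) * (d + 2) - 1 / 4 + τ) / (1 - ρ)) ∧
          ∀ x : Option (Fin (d + 1)) × J K → ℝ, x ∉ E → ∃ i₀ : ℕ, ∀ i : ℕ, i₀ ≤ i →
            ∀ q : AlmostAllBoundedDegree.Nums K d, (∀ p, |coords q p - x p * v i| ≤ (v i) ^ ρ) →
              AlmostAllBoundedDegree.IsHenon q ∧ ¬ AlmostAllBoundedDegree.HasPeriodicPoint B q 1) ∧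
        (∃ E : Set ((Option (Fin (d + 1)) × J K) ⊕ J K → ℝ),
          dimH E ≤ ENNReal.ofReal (((finrank ℚ K : ℝ) * (d + 3) - 1 / 4 + τ) / (1 - ρ)) ∧
          ∀ x : (Option (Fin (d + 1)) × J K) ⊕ J K → ℝ, x ∉ E → ∃ i₀ : ℕ, ∀ i : ℕ, i₀ ≤ i →
            ∀ (q : AlmostAllBoundedDegree.Nums K d) (m : 𝓞 K), AlmostAllBoundedDegree.IsHenon q → m ≠ 0 →
              (∀ p, |coords q p - x (Sum.inl p) * v i| ≤ (v i) ^ ρ) →
              (∀ j, |coord m j - x (Sum.inr j) * v i| ≤ (v i) ^ ρ) →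
              ¬ AlmostAllBoundedDegree.HasPeriodicPoint B q m)) ∧
    (∀ a : ℝ, 0 < a → ExpLe (fun n : ℕ => ((n : ℝ) + 1) ^ a) (1 / a)) ∧
    (∀ b : ℝ, 1 < b → ExpLe (fun n : ℕ => b ^ n) 0) := by
  refine ⟨fun v τ ρ hv hτ hE hρ => ⟨fun d hd => ?_, fun K _ _ B d hB hd => ?_⟩,
    fun κ hκ => Pool.Agent.Y854.GM.expLe_pow κ hκ, fun b hb => Pool.Agent.Y854.GM.expLe_geom b hb⟩
  · obtain ⟨⟨C, hC⟩, -⟩ := AlmostAllIntegerMaps.result d hd
    have hd2 : (2 : ℝ) ≤ d := by exact_mod_cast hd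
    have hfin : ∀ H : ℕ, (AlmostAllIntegerMaps.mapsWithPeriodicPoint d H).Finite := by
      intro H
      apply Set.Finite.subset ((Set.Finite.pi' (ι := Fin (d + 1)) (t := fun _ => Set.Icc (-(H : ℤ)) H)
        (fun _ => Set.finite_Icc _ _)).prod (Set.finite_Icc (-(H : ℤ)) H))
      rintro ⟨a, δ⟩ ⟨⟨h1, h2, -⟩, -⟩
      exact ⟨fun j => abs_le.1 (h1 j), abs_le.1 h2⟩
    obtain ⟨E, hE1, hE2⟩ := Pool.Agent.X174.winFam (κ := Option (Fin (d + 1))) (Q := (Fin (d + 1) → ℤ) × ℤ)
      (fun q j => (((j.elim q.2 q.1 : ℤ)) : ℝ)) (fun T => AlmostAllIntegerMaps.mapsWithPeriodicPoint d ⌊T⌋₊)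
      (s := (d : ℝ) + 2 - 1 / 10) (C := |C|) (by linarith)
      (fun T hT => by
        have hT1 : 1 ≤ ⌊T⌋₊ := Nat.le_floor (by exact_mod_cast hT)
        refine ⟨hfin _, (hC ⌊T⌋₊ hT1).trans ?_⟩
        exact mul_le_mul (le_abs_self C) (Real.rpow_le_rpow (Nat.cast_nonneg _) (Nat.floor_le (by linarith))
          (by linarith)) (Real.rpow_nonneg (Nat.cast_nonneg _) _) (abs_nonneg C))
      hv hτ hE hρ
    refine ⟨E, hE1, fun x hx => ?_⟩
    obtain ⟨R, hR, hRc⟩ := Pool.Agent.X174.le_of_cube x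
    obtain ⟨i₀, hi₀⟩ := hE2 x hx R hR
    refine ⟨i₀, fun i hi a δ ha hδ h1 h2 hper => ?_⟩
    have hcube : ∀ j : Option (Fin (d + 1)), |((j.elim δ a : ℤ) : ℝ) - x j * v i| ≤ (v i) ^ ρ := by
      intro j
      cases j with
      | none => exact h2
      | some j => exact h1 j
    have hle : ∀ j : Option (Fin (d + 1)), |(j.elim δ a : ℤ)| ≤ ((⌊(R : ℝ) * v i⌋₊ : ℕ) : ℤ) := by
      intro j
      have h3 := hRc (fun j : Option (Fin (d + 1)) => ((j.elim δ a : ℤ) : ℝ)) (v i) ρ (hv i) hρ hcube j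
      have h4 : (((j.elim δ a : ℤ).natAbs : ℕ) : ℝ) ≤ (R : ℝ) * v i := by
        rw [Nat.cast_natAbs, Int.cast_abs]
        exact h3
      rw [Int.abs_eq_natAbs]
      exact_mod_cast Nat.le_floor h4
    exact hi₀ i hi (a, δ) hcube ⟨⟨fun j => hle (some j), hle none, ha, hδ⟩, hper⟩
  · obtain ⟨hcard, ⟨C, hC⟩, -, ⟨C', hC'⟩, -⟩ := AlmostAllBoundedDegree.result K B d hB hd
    have hn : (1 : ℝ) ≤ finrank ℚ K := by exact_mod_cast (Module.finrank_pos (R := ℚ) (M := K))
    have hd0 : (0 : ℝ) ≤ d := Nat.cast_nonneg d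
    have hs : 0 ≤ (finrank ℚ K : ℝ) * (d + 2) - 1 / 4 := by nlinarith
    have hs' : 0 ≤ (finrank ℚ K : ℝ) * (d + 3) - 1 / 4 := by nlinarith
    have hbox : ∀ H : ℕ, (AlmostAllBoundedDegree.box K d H).Finite := fun H =>
      Set.finite_of_ncard_ne_zero (by rw [hcard H]; positivity)
    have hsmall : ∀ H : ℕ, (AlmostAllBoundedDegree.small K H).Finite := by
      intro H
      apply Set.Finite.of_finite_image (f := fun z : 𝓞 K => fun j => (RingOfIntegers.basis K).repr z j)
      · apply Set.Finite.subset (Set.Finite.pi' (ι := J K) (t := fun _ => Set.Icc (-(H : ℤ)) H)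
          (fun _ => Set.finite_Icc _ _))
        rintro _ ⟨z, hz, rfl⟩ j
        exact abs_le.1 (hz j)
      · intro z _ w _ hzw
        apply (RingOfIntegers.basis K).repr.injective
        ext j
        exact congrFun hzw j
    -- coordinates in a cube are small
    have hcoord : ∀ (R : ℕ) (i : ℕ) (z : 𝓞 K), (∀ j, |coord z j| ≤ R * v i) →
        z ∈ AlmostAllBoundedDegree.small K ⌊(R : ℝ) * v i⌋₊ := by
      intro R i z h j
      have h4 : ((((RingOfIntegers.basis K).repr z j : ℤ).natAbs : ℕ) : ℝ) ≤ (R : ℝ) * v i := by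
        rw [Nat.cast_natAbs, Int.cast_abs]
        exact h j
      rw [Int.abs_eq_natAbs]
      exact_mod_cast Nat.le_floor h4
    constructor
    · obtain ⟨E, hE1, hE2⟩ := Pool.Agent.X174.winFam (κ := Option (Fin (d + 1)) × J K)
        (Q := AlmostAllBoundedDegree.Nums K d) coords
        (fun T => {q | q ∈ AlmostAllBoundedDegree.box K d ⌊T⌋₊ ∧
          ¬ (AlmostAllBoundedDegree.IsHenon q ∧ ¬ AlmostAllBoundedDegree.HasPeriodicPoint B q 1)})
        (s := (finrank ℚ K : ℝ) * (d + 2) - 1 / 4) (C := |C|) hs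
        (fun T hT => by
          have hT1 : 1 ≤ ⌊T⌋₊ := Nat.le_floor (by exact_mod_cast hT)
          refine ⟨(hbox ⌊T⌋₊).subset fun q hq => hq.1, (hC ⌊T⌋₊ hT1 1 one_ne_zero (Or.inl rfl)).trans ?_⟩
          exact mul_le_mul (le_abs_self C) (Real.rpow_le_rpow (Nat.cast_nonneg _) (Nat.floor_le (by linarith)) hs)
            (Real.rpow_nonneg (Nat.cast_nonneg _) _) (abs_nonneg C))
        hv hτ hE hρ
      refine ⟨E, hE1, fun x hx => ?_⟩
      obtain ⟨R, hR, hRc⟩ := Pool.Agent.X174.le_of_cube x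
      obtain ⟨i₀, hi₀⟩ := hE2 x hx R hR
      refine ⟨i₀, fun i hi q hq => ?_⟩
      by_contra hcon
      have h3 := hRc (coords q) (v i) ρ (hv i) hρ hq
      refine hi₀ i hi q hq ⟨⟨fun j => hcoord R i _ fun e => ?_, hcoord R i _ fun e => ?_⟩, hcon⟩
      · exact h3 (some j, e)
      · exact h3 (none, e)
    · obtain ⟨E, hE1, hE2⟩ := Pool.Agent.X174.winFam (κ := (Option (Fin (d + 1)) × J K) ⊕ J K)
        (Q := AlmostAllBoundedDegree.Nums K d × 𝓞 K) (fun p => Sum.elim (coords p.1) (coord p.2))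
        (fun T => {p | p.1 ∈ AlmostAllBoundedDegree.box K d ⌊T⌋₊ ∧ p.2 ∈ AlmostAllBoundedDegree.small K ⌊T⌋₊ ∧ p.2 ≠ 0 ∧
          AlmostAllBoundedDegree.IsHenon p.1 ∧ AlmostAllBoundedDegree.HasPeriodicPoint B p.1 p.2})
        (s := (finrank ℚ K : ℝ) * (d + 3) - 1 / 4) (C := |C'|) hs'
        (fun T hT => by
          have hT1 : 1 ≤ ⌊T⌋₊ := Nat.le_floor (by exact_mod_cast hT)
          refine ⟨((hbox ⌊T⌋₊).prod (hsmall ⌊T⌋₊)).subset fun p hp => ⟨hp.1, hp.2.1⟩, (hC' ⌊T⌋₊ hT1).trans ?_⟩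
          exact mul_le_mul (le_abs_self C') (Real.rpow_le_rpow (Nat.cast_nonneg _) (Nat.floor_le (by linarith)) hs')
            (Real.rpow_nonneg (Nat.cast_nonneg _) _) (abs_nonneg C'))
        hv hτ hE hρ
      refine ⟨E, hE1, fun x hx => ?_⟩
      obtain ⟨R, hR, hRc⟩ := Pool.Agent.X174.le_of_cube x
      obtain ⟨i₀, hi₀⟩ := hE2 x hx R hR
      refine ⟨i₀, fun i hi q m hq hm h1 h2 hper => ?_⟩
      have hcube : ∀ p, |Sum.elim (coords q) (coord m) p - x p * v i| ≤ (v i) ^ ρ := by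
        rintro (p | j)
        · exact h1 p
        · exact h2 j
      have h3 := hRc (Sum.elim (coords q) (coord m)) (v i) ρ (hv i) hρ hcube
      exact hi₀ i hi (q, m) hcube ⟨⟨fun j => hcoord R i _ fun e => h3 (Sum.inl (some j, e)),
        hcoord R i _ fun e => h3 (Sum.inl (none, e))⟩, hcoord R i _ fun e => h3 (Sum.inr e), hm, hq, hper⟩

end Pool.Agent.Results.MP_0e6b5f_nt.MapsInCubes
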