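import Pool.Agent.Results.MP_0e6b5f_nt.AllFieldsHenon
import Pool.Agent.X174.WinQ

/-!
# No periodic points of small degree for Hénon maps over `ℚ` for ALL constant terms in squares around thin sequences

Let `0 < κ < 1`. For every sequence `v ≥ 1` of exponent of convergence at most `τ` (for `v_i = (i + 1) ^ a` this is `1 / a`,
for `v_i = b ^ i` it is `0`) and every `ρ < 1`, outside a set of `(x, y) ∈ ℝ²` of Hausdorff dimension at most
`(2 - (1 - κ) / 2 + τ) / (1 - ρ)` the following holds for all but finitely many `i`: for ALL rational numbers `c = p / q` in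
lowest terms with `|p - x v_i| ≤ v_i ^ ρ` and `|q - y v_i| ≤ v_i ^ ρ` and ALL generalized Hénon maps over `ℚ` of any degree
`d ≥ 2` with constant term `c`, whose bad primes are in a set `T` with `∑_(p ∈ T) log p < κ (1 + h(c))`, there are no
periodic points of degree less than `d`; the points of degree less than `d` escape with an explicit speed.

The number of exceptions is from the starting result `AllFieldsHenon`.
-/

set_option autoImplicit false

open NumberField Polynomial IsDedekindDomain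

namespace Pool.Agent.Results.MP_0e6b5f_nt.ParametersInCubes

open AllFieldsHenon (h height henon henonInv ContainsBad logNorm Escapes El Exc)

/-- the exponent of convergence of the sequence `v` is at most `τ` -/
def ExpLe (v : ℕ → ℝ) (τ : ℝ) : Prop := ∀ t : ℝ, τ < t → Summable (fun n : ℕ => (v n) ^ (-t))

/-- **Theorem.** Let `0 < κ < 1`. For every sequence `v ≥ 1` of exponent of convergence at most `τ ≥ 0` and every `ρ < 1`
there is a set `E ⊂ ℝ²` of Hausdorff dimension at most `(2 - (1 - κ) / 2 + τ) / (1 - ρ)` with: for each `x` outside `E`, for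
all but finitely many `i`, ALL rational numbers `c` whose numerator (denominator) differs from `x_0 v_i` (`x_1 v_i`) by at
most `v_i ^ ρ` have the property `Escapes κ c` of `AllFieldsHenon`; in particular no generalized Hénon map over `ℚ` of degree
`d` with constant term `c`, whose bad primes lie in `T` with `logNorm T < κ (1 + h(c))`, has a periodic point of degree less
than `d`. The sequences `v_i = (i + 1) ^ a` and `v_i = b ^ i` have exponent of convergence at most `1 / a` and `0`. -/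
theorem result :
    (∀ κ : ℝ, 0 < κ → κ < 1 →
      ∀ (v : ℕ → ℝ) (τ ρ : ℝ), (∀ i, 1 ≤ v i) → 0 ≤ τ → ExpLe v τ → ρ < 1 →
      ∃ E : Set (Fin 2 → ℝ), dimH E ≤ ENNReal.ofReal ((2 - (1 - κ) / 2 + τ) / (1 - ρ)) ∧
        ∀ x : Fin 2 → ℝ, x ∉ E → ∃ i₀ : ℕ, ∀ i : ℕ, i₀ ≤ i → ∀ c : ℚ,
          |(c.num : ℝ) - x 0 * v i| ≤ (v i) ^ ρ → |(c.den : ℝ) - x 1 * v i| ≤ (v i) ^ ρ →
            Escapes κ c ∧
            ∀ (F : ℚ[X]) (δ : ℚ), 2 ≤ F.natDegree → F.coeff 0 = c → δ ≠ 0 →
              ∀ T : Finset (HeightOneSpectrum (𝓞 ℚ)), ContainsBad F δ T → logNorm T < κ * (1 + h c) →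
                ∀ (L : Type) [Field L] [NumberField L] [Algebra ℚ L], Module.finrank ℚ L < F.natDegree →
                  ∀ (P : L × L) (m : ℕ), 1 ≤ m → (henon L F δ)^[m] P ≠ P) ∧
    (∀ a : ℝ, 0 < a → ExpLe (fun n : ℕ => ((n : ℝ) + 1) ^ a) (1 / a)) ∧
    (∀ b : ℝ, 1 < b → ExpLe (fun n : ℕ => b ^ n) 0) := by
  refine ⟨fun κ hκ hκ1 v τ ρ hv hτ hE hρ => ?_, fun κ hκ => Pool.Agent.Y854.GM.expLe_pow κ hκ,
    fun b hb => Pool.Agent.Y854.GM.expLe_geom b hb⟩
  obtain ⟨h1, -, -, -, h5, -, -⟩ := AllFieldsHenon.result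
  obtain ⟨E, hE1, hE2⟩ := Pool.Agent.X174.winQ (fun c : ℚ => ¬ Escapes κ c) (s := 2 - (1 - κ) / 2) (by linarith)
    (fun ε hε => by
      obtain ⟨C, hC, h2⟩ := h1 κ ε hκ hκ1 hε
      refine ⟨C, fun T hT => ?_⟩
      obtain ⟨h3, h4⟩ := h2 ℚ T hT
      have e : {c : ℚ | Height.logHeight₁ c ≤ Real.log T ∧ ¬ Escapes κ c} = Exc ℚ κ T := by
        unfold AllFieldsHenon.Exc AllFieldsHenon.El
        simp only [Module.finrank_self, Nat.cast_one, one_mul, Set.mem_setOf_eq]
      rw [e]
      refine ⟨h3.subset fun c hc => hc.1, ?_⟩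
      rw [Module.finrank_self, pow_one] at h4
      exact h4) hv hτ hE hρ
  refine ⟨E, hE1, fun x hx => ?_⟩
  obtain ⟨i₀, hi₀⟩ := hE2 x hx
  refine ⟨i₀, fun i hi c hn hd => ?_⟩
  have hesc : Escapes κ c := not_not.1 (hi₀ i hi c hn hd)
  exact ⟨hesc, fun F δ hF h0 hδ T hT hlog L _ _ _ hL P m hm => h5 ℚ κ c hesc F δ hF h0 hδ T hT hlog L hL P m hm⟩

end Pool.Agent.Results.MP_0e6b5f_nt.ParametersInCubes
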